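import Pool.Agent.H7.FrInj.Proof

set_option autoImplicit false

universe u

namespace Pool.Agent.Results.MP_5446c4_an.NoInjective

open Pool.Agent.H7.FrInj

/-- First part: there is a (commutative) Fréchet algebra over which no non-zero Fréchet module is
injective (in the sense of the problem: no unit is required; the example is `xℂ[[x]]`).
Second part: the same in the unital setting: there is a commutative unital Fréchet algebra
(`ℂ[[x]]`) such that no non-zero unital Fréchet module is injective among unital Fréchet
modules. -/
theorem result :
    (∃ (A : Type) (_ : AddCommGroup A) (_ : Module ℂ A) (_ : UniformSpace A)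
      (M : FrechetAlgebra A), IsCommutative M ∧ NoNonzeroInjective.{u} M) ∧
    (∃ (A : Type) (_ : AddCommGroup A) (_ : Module ℂ A) (_ : UniformSpace A)
      (M : FrechetAlgebra A) (e : A), IsCommutative M ∧ IsUnitElt M e ∧
        NoNonzeroUnitalInjective.{u} M e) := by
  refine ⟨⟨A0, inferInstance, inferInstance, inferInstance, M0, ?_, ?_⟩,
    ⟨A0, inferInstance, inferInstance, inferInstance, M1, xp 0, ?_, ?_, ?_⟩⟩
  · intro a b
    rw [M0_mul, M0_mul, cmul_comm a b]
  · intro X _ _ _ S h
    exact nonunital_case S h
  · intro a b
    exact cmul_comm a b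
  · intro a
    refine ⟨xp_zero_cmul a, ?_⟩
    show cmul a (xp 0) = a
    rw [cmul_comm, xp_zero_cmul]
  · intro X _ _ _ S hu h
    exact unital_case S hu h

end Pool.Agent.Results.MP_5446c4_an.NoInjective
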